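import Pool.Agent.H773R2.Complete

set_option autoImplicit false

namespace Pool.Agent.Results.MP_49bdf6_an.ExtendStrictlyBounded

open Filter Topology Set Pool.Agent.H773R2

universe u v

/-- The closed linear span of a sequence. -/
def closedSpan (𝕜 : Type u) [RCLike 𝕜] {E : Type v} [NormedAddCommGroup E] [NormedSpace 𝕜 E]
    (x : ℕ → E) : Submodule 𝕜 E :=
  (Submodule.span 𝕜 (Set.range x)).topologicalClosure

theorem mem_closedSpan (𝕜 : Type u) [RCLike 𝕜] {E : Type v} [NormedAddCommGroup E]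
    [NormedSpace 𝕜 E] (x : ℕ → E) (n : ℕ) : x n ∈ closedSpan 𝕜 x :=
  Submodule.le_topologicalClosure _ (Submodule.subset_span ⟨n, rfl⟩)

/-- A sequence `x` is a strictly bounded minimal sequence: it has associated functionals
`φ n` on its closed linear span with `φ i (x j) = δ_ij`, and `x`, `φ` are bounded in norm. -/
def IsStrictlyBoundedMinimal (𝕜 : Type u) [RCLike 𝕜] {E : Type v} [NormedAddCommGroup E]
    [NormedSpace 𝕜 E] (x : ℕ → E) : Prop :=
  ∃ φ : ℕ → StrongDual 𝕜 (closedSpan 𝕜 x),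
    (∀ i j, φ i ⟨x j, mem_closedSpan 𝕜 x j⟩ = if i = j then 1 else 0) ∧
    (∃ C : ℝ, ∀ n, ‖x n‖ ≤ C) ∧ (∃ C : ℝ, ∀ n, ‖φ n‖ ≤ C)

/-- Every strictly bounded minimal sequence `x` in a separable Banach space `E` is a subsequence
of a strictly bounded minimal sequence `z` which is complete in `E`. -/
theorem result (𝕜 : Type u) [RCLike 𝕜] (E : Type v) [NormedAddCommGroup E] [NormedSpace 𝕜 E]
    [CompleteSpace E] [TopologicalSpace.SeparableSpace E] (x : ℕ → E)
    (hx : IsStrictlyBoundedMinimal 𝕜 x) :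
    ∃ (z : ℕ → E) (s : ℕ → ℕ), StrictMono s ∧ (∀ n, z (s n) = x n) ∧
      IsStrictlyBoundedMinimal 𝕜 z ∧ closedSpan 𝕜 z = ⊤ := by
  obtain ⟨φ, hφ, ⟨C, hC⟩, ⟨C', hC'⟩⟩ := hx
  choose f hf hfn using fun n => exists_extension_norm_eq (closedSpan 𝕜 x) (φ n)
  obtain ⟨z, G, s, K, hs, hzs, hG, hzK, hGK, hcl⟩ := extend_main x f (max C C')
    (fun n => (hC n).trans (le_max_left _ _))
    (fun n => by
      rw [hfn]
      exact (hC' n).trans (le_max_right _ _))
    (fun i j => by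
      rw [← hφ i j]
      exact hf i ⟨x j, mem_closedSpan 𝕜 x j⟩)
  refine ⟨z, s, hs, hzs, ⟨fun n => (G n).comp (closedSpan 𝕜 z).subtypeL, fun i j => hG i j,
    ⟨K, hzK⟩, ⟨K, fun n => ?_⟩⟩, hcl⟩
  refine ContinuousLinearMap.opNorm_le_bound _ ((norm_nonneg _).trans (hzK 0)) fun y => ?_
  refine ((G n).le_opNorm _).trans ?_
  exact mul_le_mul_of_nonneg_right (hGK n) (norm_nonneg _)

end Pool.Agent.Results.MP_49bdf6_an.ExtendStrictlyBounded
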